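import Mathlib

/-! # Configurations, changes on a block, and independent blocks (helper70) -/

set_option autoImplicit false

open Finset

namespace Pool.Agent.K3h70.RP

variable {ι : Type} [Fintype ι] [DecidableEq ι]

/-- the configurations -/
def conf (w : ι → ℕ) : Finset (ι → ℕ) := Fintype.piFinset fun i => range (w i + 1)

lemma mem_conf {w : ι → ℕ} {x : ι → ℕ} : x ∈ conf w ↔ ∀ i, x i ≤ w i := by
  simp [conf]

/-- the configurations which agree with `x` outside `B` -/
def cls (w : ι → ℕ) (B : Finset ι) (x : ι → ℕ) : Finset (ι → ℕ) :=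
  (conf w).filter fun y => ∀ i, i ∉ B → y i = x i

lemma mem_cls {w : ι → ℕ} {B : Finset ι} {x y : ι → ℕ} :
    y ∈ cls w B x ↔ (∀ i, y i ≤ w i) ∧ ∀ i, i ∉ B → y i = x i := by
  rw [cls, mem_filter, mem_conf]

lemma card_cls (w : ι → ℕ) (B : Finset ι) {x : ι → ℕ} (hx : x ∈ conf w) :
    (cls w B x).card = ∏ i ∈ B, (w i + 1) := by
  have h1 : cls w B x = Fintype.piFinset fun i => if i ∈ B then range (w i + 1) else {x i} := by
    ext y
    rw [mem_cls, Fintype.mem_piFinset]
    constructor
    · rintro ⟨h1, h2⟩ i
      split_ifs with h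
      · rw [mem_range]; have := h1 i; omega
      · rw [mem_singleton]; exact h2 i h
    · intro h
      constructor
      · intro i
        have := h i
        split_ifs at this with h'
        · rw [mem_range] at this; omega
        · rw [mem_singleton] at this
          rw [this]
          exact mem_conf.1 hx i
      · intro i hi
        have := h i
        rw [if_neg hi, mem_singleton] at this
        exact this
  rw [h1, Fintype.card_piFinset]
  have h2 : ∀ i : ι, (if i ∈ B then range (w i + 1) else ({x i} : Finset ℕ)).card =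
      if i ∈ B then (w i + 1) else 1 := by
    intro i
    split_ifs <;> simp
  rw [Finset.prod_congr rfl fun i _ => h2 i, Finset.prod_ite_mem, Finset.univ_inter]

/-- one block -/
lemma step {w : ι → ℕ} {B : Finset ι} (D : Finset (ι → ℕ)) (hD : D ⊆ conf w)
    (hinv : ∀ x ∈ D, ∀ y ∈ cls w B x, y ∈ D) (F : (ι → ℕ) → Prop) [DecidablePred F] {θ : ℝ}
    (hF : ∀ x ∈ conf w, (((cls w B x).filter F).card : ℝ) ≤ θ * (cls w B x).card) :
    ((D.filter F).card : ℝ) ≤ θ * D.card := by
  set n : ℕ := ∏ i ∈ B, (w i + 1) with hn
  have hn0 : 0 < n := Finset.prod_pos fun i _ => Nat.succ_pos _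
  have h1 : ∑ x ∈ D, ((cls w B x).filter F).card = (D.filter F).card * n := by
    have h2 : ∑ x ∈ D, ((cls w B x).filter F).card = ∑ y ∈ D.filter F, (cls w B y).card := by
      simp only [Finset.card_eq_sum_ones, Finset.sum_filter]
      rw [← Finset.sum_filter]
      have e1 : ∀ x ∈ D, ∑ y ∈ cls w B x, (if F y then 1 else 0) =
          ∑ y ∈ D, if (y ∈ cls w B x ∧ F y) then 1 else 0 := by
        intro x hx
        rw [← Finset.sum_filter, ← Finset.sum_filter]
        apply Finset.sum_congr _ fun _ _ => rfl
        ext y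
        rw [mem_filter, mem_filter]
        exact ⟨fun h => ⟨hinv x hx y h.1, h⟩, fun h => h.2⟩
      rw [Finset.sum_congr rfl e1, Finset.sum_comm, Finset.sum_filter]
      apply Finset.sum_congr rfl
      intro y hy
      split_ifs with h
      · rw [← Finset.card_eq_sum_ones, ← Finset.sum_filter, ← Finset.card_eq_sum_ones]
        congr 1
        ext x
        rw [mem_filter]
        constructor
        · rintro ⟨hx, hxy, -⟩
          rw [mem_cls] at hxy ⊢
          exact ⟨mem_conf.1 (hD hx), fun i hi => (hxy.2 i hi).symm⟩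
        · intro hx
          refine ⟨hinv y hy x hx, ?_, h⟩
          rw [mem_cls] at hx ⊢
          exact ⟨mem_conf.1 (hD hy), fun i hi => (hx.2 i hi).symm⟩
      · apply Finset.sum_eq_zero
        intro x _
        rw [if_neg]
        exact fun h' => h h'.2
    rw [h2, Finset.sum_congr rfl fun y hy => card_cls w B (hD (mem_filter.1 hy).1),
      Finset.sum_const, smul_eq_mul]
  have h3 : (((D.filter F).card * n : ℕ) : ℝ) ≤ θ * D.card * n := by
    rw [← h1]
    push_cast
    calc ∑ x ∈ D, (((cls w B x).filter F).card : ℝ) ≤ ∑ x ∈ D, θ * n := by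
          apply Finset.sum_le_sum
          intro x hx
          have := hF x (hD hx)
          rwa [card_cls w B (hD hx)] at this
      _ = θ * D.card * n := by rw [Finset.sum_const, nsmul_eq_mul]; ring
  have hn' : (0 : ℝ) < n := by exact_mod_cast hn0
  push_cast at h3
  exact le_of_mul_le_mul_right h3 hn'

/-- independent blocks -/
lemma blocks {w : ι → ℕ} (B : ℕ → Finset ι) (F : ℕ → (ι → ℕ) → Prop)
    [∀ l, DecidablePred (F l)] {θ : ℝ} (hθ : 0 ≤ θ) (L : ℕ)
    (hinv : ∀ l < L, ∀ l' < L, l ≠ l' → ∀ x ∈ conf w, ∀ y ∈ cls w (B l') x, (F l x ↔ F l y))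
    (hF : ∀ l < L, ∀ x ∈ conf w, (((cls w (B l) x).filter (F l)).card : ℝ) ≤
      θ * (cls w (B l) x).card) :
    (((conf w).filter fun x => ∀ l < L, F l x).card : ℝ) ≤ θ ^ L * (conf w).card := by
  have key : ∀ j ≤ L, (((conf w).filter fun x => ∀ l < j, F l x).card : ℝ) ≤
      θ ^ j * (conf w).card := by
    intro j
    induction j with
    | zero =>
      intro _
      simp
    | succ j ih =>
      intro hj
      have h1 := ih (by omega)
      have h2 := step (B := B j) ((conf w).filter fun x => ∀ l < j, F l x) (filter_subset _ _)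
        (by
          intro x hx y hy
          rw [mem_filter] at hx ⊢
          refine ⟨(mem_filter.1 hy).1, fun l hl => ?_⟩
          exact (hinv l (by omega) j (by omega) (by omega) x hx.1 y hy).1 (hx.2 l hl))
        (F j) (θ := θ) (hF j (by omega))
      have h3 : ((conf w).filter fun x => ∀ l < j + 1, F l x) =
          ((conf w).filter fun x => ∀ l < j, F l x).filter (F j) := by
        ext x
        rw [mem_filter, mem_filter, mem_filter, and_assoc]
        refine and_congr_right fun _ => ⟨fun h => ⟨fun l hl => h l (by omega), h j (by omega)⟩, ?_⟩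
        rintro ⟨h, h'⟩ l hl
        rcases Nat.lt_succ_iff_lt_or_eq.1 hl with h'' | h''
        · exact h l h''
        · rw [h'']; exact h'
      rw [h3, pow_succ]
      calc _ ≤ θ * ((conf w).filter fun x => ∀ l < j, F l x).card := h2
        _ ≤ θ * (θ ^ j * (conf w).card) := mul_le_mul_of_nonneg_left h1 hθ
        _ = _ := by ring
  exact key L le_rfl

end Pool.Agent.K3h70.RP
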