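import Mathlib
import Pool.Agent.K3h70.RP.Blocks

/-! # The second moment in one block (helper70) -/

set_option autoImplicit false

open Finset

namespace Pool.Agent.K3h70.RP

variable {ι : Type} [Fintype ι] [DecidableEq ι]

section

variable {w : ι → ℕ} {B : Finset ι} {x : ι → ℕ} {r m : ℕ} {b : ι} {e : Fin r → Fin m → ι}

/-- the configurations with a given sum -/
def ev (w : ι → ℕ) (B : Finset ι) (x : ι → ℕ) (b : ι) (e : Fin r → Fin m → ι)
    (T : (Fin r → Fin m) → ℕ) (f : Fin r → Fin m) : Finset (ι → ℕ) :=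
  (cls w B x).filter fun y => y b + ∑ i, y (e i (f i)) = T f

lemma mem_ev {T : (Fin r → Fin m) → ℕ} {f : Fin r → Fin m} {y : ι → ℕ} :
    y ∈ ev w B x b e T f ↔ y ∈ cls w B x ∧ y b + ∑ i, y (e i (f i)) = T f := by
  rw [ev, mem_filter]

lemma upd_mem {y : ι → ℕ} (hy : y ∈ cls w B x) {c : ι} (hc : c ∈ B) {a : ℕ} (ha : a ≤ w c) :
    Function.update y c a ∈ cls w B x := by
  rw [mem_cls] at hy ⊢
  constructor
  · intro i
    by_cases h : i = c
    · subst h; simpa using ha
    · rw [Function.update_of_ne h]; exact hy.1 i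
  · intro i hi
    have h : i ≠ c := fun h => hi (h ▸ hc)
    rw [Function.update_of_ne h]
    exact hy.2 i hi

lemma ev_lower (hb : b ∈ B) (hbe : ∀ i j, e i j ≠ b) {T : (Fin r → Fin m) → ℕ}
    (hT : ∀ f, ∑ i, w (e i (f i)) ≤ T f ∧ T f ≤ w b) (f : Fin r → Fin m) :
    (cls w B x).card ≤ (ev w B x b e T f).card * (w b + 1) := by
  rw [← Finset.card_range (w b + 1), ← Finset.card_product]
  have hle : ∀ y ∈ cls w B x, ∑ i, y (e i (f i)) ≤ T f := fun y hy =>
    (Finset.sum_le_sum fun i _ => (mem_cls.1 hy).1 _).trans (hT f).1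
  apply Finset.card_le_card_of_injOn
    (fun y => (Function.update y b (T f - ∑ i, y (e i (f i))), y b))
  · intro y hy
    have hy' : y ∈ cls w B x := hy
    simp only [Finset.coe_product, Set.mem_prod, Finset.mem_coe]
    constructor
    · rw [mem_ev]
      constructor
      · exact upd_mem hy' hb ((Nat.sub_le _ _).trans (hT f).2)
      · have h1 : ∀ i, Function.update y b (T f - ∑ i, y (e i (f i))) (e i (f i)) = y (e i (f i)) :=
          fun i => Function.update_of_ne (hbe _ _) _ _
        simp only [h1, Function.update_self]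
        have := hle y hy'
        omega
    · rw [mem_range]
      have := (mem_cls.1 hy').1 b
      omega
  · intro y _ y' _ h
    simp only [Prod.mk.injEq] at h
    funext i
    by_cases hi : i = b
    · rw [hi]; exact h.2
    · have := congrFun h.1 i
      rwa [Function.update_of_ne hi, Function.update_of_ne hi] at this

lemma ev_upper (hb : b ∈ B) (hbe : ∀ i j, e i j ≠ b) (T : (Fin r → Fin m) → ℕ)
    (f : Fin r → Fin m) : (ev w B x b e T f).card * (w b + 1) ≤ (cls w B x).card := by
  rw [← Finset.card_range (w b + 1), ← Finset.card_product]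
  apply Finset.card_le_card_of_injOn (fun p => Function.update p.1 b p.2)
  · rintro ⟨y, a⟩ h
    simp only [Finset.coe_product, Set.mem_prod, Finset.mem_coe, mem_range, mem_ev] at h
    exact upd_mem h.1.1 hb (by omega)
  · rintro ⟨y, a⟩ h ⟨y', a'⟩ h' heq
    simp only [Finset.coe_product, Set.mem_prod, Finset.mem_coe, mem_range, mem_ev] at h h'
    simp only at heq
    have ha : a = a' := by
      have := congrFun heq b
      simpa using this
    have hoff : ∀ i, i ≠ b → y i = y' i := by
      intro i hi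
      have := congrFun heq i
      rwa [Function.update_of_ne hi, Function.update_of_ne hi] at this
    have hs : ∑ i, y (e i (f i)) = ∑ i, y' (e i (f i)) :=
      Finset.sum_congr rfl fun i _ => hoff _ (hbe _ _)
    have hyb : y b = y' b := by
      have h1 := h.1.2
      have h2 := h'.1.2
      omega
    rw [Prod.mk.injEq]
    refine ⟨?_, ha⟩
    funext i
    by_cases hi : i = b
    · rw [hi, hyb]
    · exact hoff i hi

lemma ev_pair (hb : b ∈ B) (he : ∀ i j, e i j ∈ B) (hbe : ∀ i j, e i j ≠ b)
    (hinj : ∀ i j i' j', e i j = e i' j' → i = i' ∧ j = j') (T : (Fin r → Fin m) → ℕ) {ws : ℕ}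
    (hws : ∀ i j, ws ≤ w (e i j)) {f g : Fin r → Fin m} (hfg : f ≠ g) :
    (ev w B x b e T f ∩ ev w B x b e T g).card * ((w b + 1) * (ws + 1)) ≤ (cls w B x).card := by
  obtain ⟨i₀, hi₀⟩ : ∃ i, f i ≠ g i := by
    by_contra h
    push Not at h
    exact hfg (funext h)
  set c := e i₀ (f i₀) with hc
  have hcb : c ≠ b := hbe _ _
  have hgc : ∀ i, e i (g i) ≠ c := by
    intro i h
    obtain ⟨h1, h2⟩ := hinj _ _ _ _ h
    subst h1
    exact hi₀ h2.symm
  have hfc : ∀ i, i ≠ i₀ → e i (f i) ≠ c := by
    intro i hi h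
    exact hi (hinj _ _ _ _ h).1
  rw [← Finset.card_range (w b + 1), ← Finset.card_range (ws + 1), ← Finset.card_product,
    ← Finset.card_product]
  apply Finset.card_le_card_of_injOn
    (fun p => Function.update (Function.update p.1 b p.2.1) c p.2.2)
  · rintro ⟨y, a, a₁⟩ h
    simp only [Finset.coe_product, Set.mem_prod, Finset.mem_coe, mem_range, mem_inter,
      mem_ev] at h
    have ha1 : a ≤ w b := by omega
    have ha2 : a₁ ≤ w c := by
      have := hws i₀ (f i₀)
      rw [hc]
      omega
    exact upd_mem (upd_mem h.1.1.1 hb ha1) (he _ _) ha2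
  · rintro ⟨y, a, a₁⟩ h ⟨y', a', a₁'⟩ h' heq
    simp only [Finset.coe_product, Set.mem_prod, Finset.mem_coe, mem_range, mem_inter,
      mem_ev] at h h'
    simp only at heq
    have ha₁ : a₁ = a₁' := by
      have := congrFun heq c
      simpa using this
    have ha : a = a' := by
      have := congrFun heq b
      rw [Function.update_of_ne hcb.symm, Function.update_of_ne hcb.symm] at this
      simpa using this
    have hoff : ∀ i, i ≠ b → i ≠ c → y i = y' i := by
      intro i hi hi'
      have := congrFun heq i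
      rwa [Function.update_of_ne hi', Function.update_of_ne hi', Function.update_of_ne hi,
        Function.update_of_ne hi] at this
    have hsg : ∑ i, y (e i (g i)) = ∑ i, y' (e i (g i)) :=
      Finset.sum_congr rfl fun i _ => hoff _ (hbe _ _) (hgc i)
    have hyb : y b = y' b := by
      have h1 := h.1.2.2
      have h2 := h'.1.2.2
      omega
    have hsf : ∑ i ∈ univ.erase i₀, y (e i (f i)) = ∑ i ∈ univ.erase i₀, y' (e i (f i)) :=
      Finset.sum_congr rfl fun i hi => hoff _ (hbe _ _) (hfc i (Finset.ne_of_mem_erase hi))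
    have hyc : y c = y' c := by
      have h1 := h.1.1.2
      have h2 := h'.1.1.2
      rw [← Finset.add_sum_erase _ _ (mem_univ i₀)] at h1 h2
      rw [← hc] at h1 h2
      omega
    rw [Prod.mk.injEq, Prod.mk.injEq]
    refine ⟨?_, ha, ha₁⟩
    funext i
    by_cases hi : i = b
    · rw [hi, hyb]
    · by_cases hi' : i = c
      · rw [hi', hyc]
      · exact hoff i hi hi'

/-- a positive proportion of the configurations of a block has a good tuple -/
lemma one_block (hb : b ∈ B) (he : ∀ i j, e i j ∈ B) (hbe : ∀ i j, e i j ≠ b)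
    (hinj : ∀ i j i' j', e i j = e i' j' → i = i' ∧ j = j') {T : (Fin r → Fin m) → ℕ}
    (hT : ∀ f, ∑ i, w (e i (f i)) ≤ T f ∧ T f ≤ w b) {ws : ℕ}
    (hws : ∀ i j, ws ≤ w (e i j)) (hm : ws + 1 ≤ m ^ r) :
    ((ws : ℝ) + 1) / (2 * (w b + 1)) * (cls w B x).card ≤
      ((cls w B x).filter fun y => ∃ f : Fin r → Fin m, y b + ∑ i, y (e i (f i)) = T f).card := by
  classical
  set C := cls w B x with hC
  set S : (Fin r → Fin m) → Finset (ι → ℕ) := fun f => ev w B x b e T f with hS
  have hSC : ∀ f, S f ⊆ C := fun f => by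
    rw [hS]; exact filter_subset _ _
  set U := C.filter fun y => ∃ f : Fin r → Fin m, y b + ∑ i, y (e i (f i)) = T f with hU
  have hSU : ∀ f, S f ⊆ U := by
    intro f y hy
    rw [hS, mem_ev] at hy
    rw [hU, mem_filter]
    exact ⟨hy.1, f, hy.2⟩
  rcases C.card.eq_zero_or_pos with h0 | h0
  · rw [h0]; push_cast; rw [mul_zero]; positivity
  have hCR : (0 : ℝ) < C.card := by exact_mod_cast h0
  -- the number of tuples
  set M : ℝ := (m : ℝ) ^ r with hM
  have hMcard : ((univ : Finset (Fin r → Fin m)).card : ℝ) = M := by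
    rw [Finset.card_univ]
    simp [hM]
  have hMws : (ws : ℝ) + 1 ≤ M := by rw [hM]; exact_mod_cast hm
  have hM0 : 0 < M := by
    have : (0 : ℝ) ≤ ws := by positivity
    linarith
  set N : (ι → ℕ) → ℝ := fun y => ∑ f, if y ∈ S f then (1 : ℝ) else 0 with hN
  have hsum1 : ∑ y ∈ U, N y = ∑ f, ((S f).card : ℝ) := by
    rw [hN, Finset.sum_comm]
    apply Finset.sum_congr rfl
    intro f _
    rw [← Finset.sum_filter, Finset.sum_const, nsmul_eq_mul, mul_one]
    congr 2
    ext y
    rw [mem_filter]
    exact ⟨fun h => h.2, fun h => ⟨hSU f h, h⟩⟩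
  have hsum2 : ∑ y ∈ U, N y ^ 2 = ∑ f, ∑ g, ((S f ∩ S g).card : ℝ) := by
    have e1 : ∀ y, N y ^ 2 = ∑ f, ∑ g, if y ∈ S f ∩ S g then (1 : ℝ) else 0 := by
      intro y
      rw [hN]
      simp only
      rw [sq, Finset.sum_mul_sum]
      apply Finset.sum_congr rfl fun f _ => Finset.sum_congr rfl fun g _ => ?_
      by_cases h1 : y ∈ S f <;> by_cases h2 : y ∈ S g <;> simp [h1, h2]
    simp only [e1]
    rw [Finset.sum_comm]
    apply Finset.sum_congr rfl
    intro f _
    rw [Finset.sum_comm]
    apply Finset.sum_congr rfl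
    intro g _
    rw [← Finset.sum_filter, Finset.sum_const, nsmul_eq_mul, mul_one]
    congr 2
    ext y
    rw [mem_filter]
    exact ⟨fun h => h.2, fun h => ⟨hSU f (mem_inter.1 h).1, h⟩⟩
  have hCS : (∑ y ∈ U, N y) ^ 2 ≤ U.card * ∑ y ∈ U, N y ^ 2 := sq_sum_le_card_mul_sum_sq
  -- bounds
  set a : ℝ := (w b : ℝ) + 1 with ha
  set s : ℝ := (ws : ℝ) + 1 with hs
  have ha0 : 0 < a := by rw [ha]; positivity
  have hs0 : 0 < s := by rw [hs]; positivity
  have h1 : M * C.card ≤ (∑ y ∈ U, N y) * a := by
    rw [hsum1, Finset.sum_mul, ← hMcard, ← nsmul_eq_mul, ← Finset.sum_const]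
    apply Finset.sum_le_sum
    intro f _
    have := ev_lower (x := x) hb hbe hT f
    rw [ha]
    exact_mod_cast this
  have h2 : (∑ y ∈ U, N y ^ 2) * (a * s) ≤ 2 * M ^ 2 * C.card := by
    rw [hsum2]
    have h3 : ∀ f g, ((S f ∩ S g).card : ℝ) * (a * s) ≤
        C.card + if f = g then s * C.card else 0 := by
      intro f g
      split_ifs with h
      · subst h
        rw [Finset.inter_self]
        have h4 : ((S f).card : ℝ) * a ≤ C.card := by
          have := ev_upper (x := x) (w := w) hb hbe T f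
          rw [ha]
          exact_mod_cast this
        nlinarith
      · have := ev_pair (x := x) hb he hbe hinj T hws h
        rw [ha, hs, add_zero]
        exact_mod_cast this
    rw [Finset.sum_mul]
    calc ∑ f, (∑ g, ((S f ∩ S g).card : ℝ)) * (a * s)
        = ∑ f, ∑ g, ((S f ∩ S g).card : ℝ) * (a * s) := by
          apply Finset.sum_congr rfl fun f _ => ?_
          rw [Finset.sum_mul]
      _ ≤ ∑ f : Fin r → Fin m, ∑ g : Fin r → Fin m,
          ((C.card : ℝ) + if f = g then s * C.card else 0) :=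
          Finset.sum_le_sum fun f _ => Finset.sum_le_sum fun g _ => h3 f g
      _ = M * (M * C.card + s * C.card) := by
          have h5 : ∀ f : Fin r → Fin m, ∑ g : Fin r → Fin m,
              ((C.card : ℝ) + if f = g then s * C.card else 0) = M * C.card + s * C.card := by
            intro f
            rw [Finset.sum_add_distrib, Finset.sum_const, nsmul_eq_mul, hMcard,
              Finset.sum_ite_eq, if_pos (mem_univ _)]
          rw [Finset.sum_congr rfl fun f _ => h5 f, Finset.sum_const, nsmul_eq_mul, hMcard]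
      _ ≤ 2 * M ^ 2 * C.card := by
          have : s * C.card ≤ M * C.card := mul_le_mul_of_nonneg_right hMws hCR.le
          nlinarith
  -- conclusion
  set A1 := ∑ y ∈ U, N y with hA1
  set A2 := ∑ y ∈ U, N y ^ 2 with hA2
  have hU0 : (0 : ℝ) ≤ U.card := by positivity
  have h6 : (M * C.card) ^ 2 * s ≤ U.card * (2 * M ^ 2 * C.card) * a := by
    have h7 : (M * C.card) ^ 2 ≤ (A1 * a) ^ 2 := by
      apply pow_le_pow_left₀ (by positivity) h1
    calc (M * C.card) ^ 2 * s ≤ (A1 * a) ^ 2 * s := mul_le_mul_of_nonneg_right h7 hs0.le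
      _ = A1 ^ 2 * (a * s) * a := by ring
      _ ≤ (U.card * A2) * (a * s) * a := by
          apply mul_le_mul_of_nonneg_right _ ha0.le
          exact mul_le_mul_of_nonneg_right hCS (by positivity)
      _ = U.card * (A2 * (a * s)) * a := by ring
      _ ≤ U.card * (2 * M ^ 2 * C.card) * a := by
          apply mul_le_mul_of_nonneg_right _ ha0.le
          exact mul_le_mul_of_nonneg_left h2 hU0
  have h8 : (M ^ 2 * C.card) * (C.card * s) ≤ (M ^ 2 * C.card) * (U.card * (2 * a)) := by
    linarith
  have h9 := le_of_mul_le_mul_left h8 (by positivity)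
  rw [div_mul_eq_mul_div, div_le_iff₀ (by positivity)]
  linarith

end

end Pool.Agent.K3h70.RP
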