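import Mathlib
import Pool.Agent.K3h70.RP.One

/-! # All blocks fail rarely (helper70) -/

set_option autoImplicit false

open Finset

namespace Pool.Agent.K3h70.RP

variable {ι : Type} [Fintype ι] [DecidableEq ι]

/-- the indices of a block -/
def bl {r m : ℕ} (b : ι) (e : Fin r → Fin m → ι) : Finset ι :=
  insert b (univ.image fun p : Fin r × Fin m => e p.1 p.2)

lemma mem_bl {r m : ℕ} {b : ι} {e : Fin r → Fin m → ι} {i : ι} :
    i ∈ bl b e ↔ i = b ∨ ∃ j j', e j j' = i := by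
  rw [bl, mem_insert, mem_image]
  constructor
  · rintro (h | ⟨p, -, hp⟩)
    · exact Or.inl h
    · exact Or.inr ⟨p.1, p.2, hp⟩
  · rintro (h | ⟨j, j', h⟩)
    · exact Or.inl h
    · exact Or.inr ⟨(j, j'), mem_univ _, h⟩

open Classical in
lemma fail_count {w : ι → ℕ} {r m L : ℕ} (b : ℕ → ι) (e : ℕ → Fin r → Fin m → ι)
    (hbb : ∀ l < L, ∀ l' < L, b l = b l' → l = l')
    (hbe : ∀ l < L, ∀ l' < L, ∀ i j, e l i j ≠ b l')
    (hee : ∀ l < L, ∀ l' < L, ∀ i j i' j', e l i j = e l' i' j' → l = l' ∧ i = i' ∧ j = j')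
    (T : ℕ → (ι → ℕ) → (Fin r → Fin m) → ℕ)
    (hTinv : ∀ l < L, ∀ l' < L, ∀ x ∈ conf w, ∀ y ∈ cls w (bl (b l') (e l')) x, T l x = T l y)
    (hT : ∀ l < L, ∀ x ∈ conf w, ∀ f, ∑ i, w (e l i (f i)) ≤ T l x f ∧ T l x f ≤ w (b l))
    {ws : ℕ} (hws : ∀ l < L, ∀ i j, ws ≤ w (e l i j)) (hm : ws + 1 ≤ m ^ r) {q : ℝ} (hq1 : q ≤ 1)
    (hq : ∀ l < L, q ≤ ((ws : ℝ) + 1) / (2 * (w (b l) + 1))) :
    (((conf w).filter fun x => ∀ l < L, ¬ ∃ f : Fin r → Fin m,
      x (b l) + ∑ i, x (e l i (f i)) = T l x f).card : ℝ) ≤ (1 - q) ^ L * (conf w).card := by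
  apply blocks (fun l => bl (b l) (e l))
    (fun l x => ¬ ∃ f : Fin r → Fin m, x (b l) + ∑ i, x (e l i (f i)) = T l x f)
    (by linarith) L
  · intro l hl l' hl' hll x hx y hy
    have h1 := hTinv l hl l' hl' x hx y hy
    have h2 : y (b l) = x (b l) := by
      apply (mem_cls.1 hy).2
      rw [mem_bl]
      rintro (h | ⟨j, j', h⟩)
      · exact hll (hbb l hl l' hl' h)
      · exact hbe l' hl' l hl _ _ h
    have h3 : ∀ i j, y (e l i j) = x (e l i j) := by
      intro i j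
      apply (mem_cls.1 hy).2
      rw [mem_bl]
      rintro (h | ⟨j, j', h⟩)
      · exact hbe l hl l' hl' _ _ h
      · exact hll (hee l' hl' l hl _ _ _ _ h).1.symm
    rw [h1]
    simp only [h2, h3]
  · intro l hl x hx
    have hsub : (cls w (bl (b l) (e l)) x).filter (fun y => ¬ ∃ f : Fin r → Fin m,
        y (b l) + ∑ i, y (e l i (f i)) = T l y f) =
        (cls w (bl (b l) (e l)) x).filter (fun y => ¬ ∃ f : Fin r → Fin m,
        y (b l) + ∑ i, y (e l i (f i)) = T l x f) := by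
      apply Finset.filter_congr
      intro y hy
      rw [hTinv l hl l hl x hx y hy]
    rw [hsub]
    have h1 := one_block (w := w) (B := bl (b l) (e l)) (x := x) (b := b l) (e := e l)
      (mem_bl.2 (Or.inl rfl)) (fun i j => mem_bl.2 (Or.inr ⟨i, j, rfl⟩))
      (fun i j => hbe l hl l hl i j)
      (fun i j i' j' h => (hee l hl l hl i j i' j' h).2) (hT l hl x hx) (hws l hl) hm
    have h2 := Finset.card_filter_add_card_filter_not (s := cls w (bl (b l) (e l)) x)
      (fun y => ∃ f : Fin r → Fin m, y (b l) + ∑ i, y (e l i (f i)) = T l x f)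
    have h3 : (((cls w (bl (b l) (e l)) x).filter
        (fun y => ∃ f : Fin r → Fin m, y (b l) + ∑ i, y (e l i (f i)) = T l x f)).card : ℝ) +
        ((cls w (bl (b l) (e l)) x).filter
        (fun y => ¬ ∃ f : Fin r → Fin m, y (b l) + ∑ i, y (e l i (f i)) = T l x f)).card =
        (cls w (bl (b l) (e l)) x).card := by exact_mod_cast h2
    have h4 : q * (cls w (bl (b l) (e l)) x).card ≤
        ((ws : ℝ) + 1) / (2 * (w (b l) + 1)) * (cls w (bl (b l) (e l)) x).card :=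
      mul_le_mul_of_nonneg_right (hq l hl) (by positivity)
    linarith

end Pool.Agent.K3h70.RP
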