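import Mathlib
import Pool.Agent.K3h70.WA.Res
import Pool.Agent.K3h70.RP.Fail

/-! # Many elements in a zone; the low part of a configuration (helper70) -/

set_option autoImplicit false

open Finset

namespace Pool.Agent.K3h70.RP

open Pool.Agent.K3h70.WA

/-- the sequence `a` has an element within `K x ^ (1 - κ)` below every `x ≥ x₀` -/
def GapS (κ K x₀ : ℝ) (a : ℕ → ℕ) : Prop :=
  ∀ x : ℝ, x₀ ≤ x → ∃ n, x - K * x ^ (1 - κ) ≤ (a n : ℝ) ∧ (a n : ℝ) ≤ x

/-- many indices in a zone -/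
lemma zone {κ K x₀ : ℝ} (hκ : 0 < κ) (hκ1 : κ < 1) {c₁ c₂ : ℝ} (hc₁ : 0 < c₁) (hc : c₁ < c₂)
    (hc₂ : c₂ ≤ 1) {σ C : ℝ} (hσ : σ < κ) :
    ∃ X₀ : ℝ, ∀ a : ℕ → ℕ, GapS κ K x₀ a → ∀ X : ℝ, X₀ ≤ X → ∀ J : ℕ, (J : ℝ) ≤ C * X ^ σ →
      ∃ g : ℕ → ℕ, (∀ j, c₁ * X ≤ a (g j) ∧ (a (g j) : ℝ) ≤ c₂ * X) ∧
        ∀ j < J, ∀ j' < J, g j = g j' → j = j' := by
  set K' : ℝ := max K 1 with hK'
  have hK1 : 1 ≤ K' := le_max_right _ _
  have hKK : K ≤ K' := le_max_left _ _
  have hlarge : ∃ X₀ : ℝ, ∀ X : ℝ, X₀ ≤ X → 1 ≤ X ∧ x₀ / c₁ ≤ X ∧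
      C ≤ X ^ (κ - σ) * ((c₂ - c₁) / (4 * K')) ∧ 4 * K' / (c₂ - c₁) ≤ X ^ κ := by
    have t1 := (tendsto_rpow_atTop (show 0 < κ - σ by linarith)).atTop_mul_const
      (show 0 < (c₂ - c₁) / (4 * K') from div_pos (by linarith) (by linarith))
    have t2 := tendsto_rpow_atTop hκ
    obtain ⟨X₀, h⟩ := Filter.eventually_atTop.1 ((Filter.eventually_ge_atTop (1 : ℝ)).and
      ((Filter.eventually_ge_atTop (x₀ / c₁)).and ((t1.eventually_ge_atTop C).and
      (t2.eventually_ge_atTop (4 * K' / (c₂ - c₁))))))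
    exact ⟨X₀, h⟩
  obtain ⟨X₀, hX₀⟩ := hlarge
  refine ⟨X₀, fun a ha X hXX J hJ => ?_⟩
  obtain ⟨hX1, hXx, hXC, hXK⟩ := hX₀ X hXX
  have hXpos : 0 < X := by linarith
  set M : ℝ := X ^ (1 - κ) with hM
  have hM0 : 0 < M := Real.rpow_pos_of_pos hXpos _
  have hMX : M * X ^ κ = X := by
    rw [hM, ← Real.rpow_add hXpos, sub_add_cancel, Real.rpow_one]
  have hXκ : 0 < X ^ κ := Real.rpow_pos_of_pos hXpos _
  have hJM : (J : ℝ) * (4 * K' * M) ≤ (c₂ - c₁) * X := by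
    have h1 : (J : ℝ) ≤ X ^ κ * ((c₂ - c₁) / (4 * K')) := by
      refine hJ.trans ?_
      have h2 : X ^ (κ - σ) * X ^ σ = X ^ κ := by
        rw [← Real.rpow_add hXpos]; congr 1; ring
      have h3 : 0 < X ^ σ := Real.rpow_pos_of_pos hXpos _
      calc C * X ^ σ ≤ X ^ (κ - σ) * ((c₂ - c₁) / (4 * K')) * X ^ σ :=
            mul_le_mul_of_nonneg_right hXC h3.le
        _ = (X ^ (κ - σ) * X ^ σ) * ((c₂ - c₁) / (4 * K')) := by ring
        _ = _ := by rw [h2]
    calc (J : ℝ) * (4 * K' * M) ≤ X ^ κ * ((c₂ - c₁) / (4 * K')) * (4 * K' * M) :=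
          mul_le_mul_of_nonneg_right h1 (by positivity)
      _ = (M * X ^ κ) * (c₂ - c₁) := by field_simp
      _ = _ := by rw [hMX]; ring
  have h4K : 4 * K' * M ≤ (c₂ - c₁) * X := by
    rw [div_le_iff₀ (by linarith)] at hXK
    calc 4 * K' * M ≤ X ^ κ * (c₂ - c₁) * M := mul_le_mul_of_nonneg_right hXK hM0.le
      _ = (M * X ^ κ) * (c₂ - c₁) := by ring
      _ = _ := by rw [hMX]; ring
  -- the grid
  have hgrid : ∀ j : ℕ, ∃ n : ℕ, (j < J ∨ j = 0) →
      c₂ * X - 2 * K' * M * j - K' * M ≤ a n ∧ (a n : ℝ) ≤ c₂ * X - 2 * K' * M * j := by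
    intro j
    by_cases hj : j < J ∨ j = 0
    · have h5 : 2 * K' * M * j + K' * M ≤ (c₂ - c₁) * X := by
        rcases hj with hj | hj
        · have h6 : (j : ℝ) + 1 ≤ J := by exact_mod_cast hj
          have h7 : 0 < K' * M := by positivity
          nlinarith
        · rw [hj]
          push_cast
          have h7 : 0 < K' * M := by positivity
          linarith
      set y : ℝ := c₂ * X - 2 * K' * M * j with hy
      have hy1 : c₁ * X ≤ y := by
        have h7 : 0 < K' * M := by positivity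
        rw [hy]; linarith
      have hyX : y ≤ X := by
        have : 0 ≤ 2 * K' * M * j := by positivity
        rw [hy]
        nlinarith
      have hy0 : 0 < y := lt_of_lt_of_le (by positivity) hy1
      obtain ⟨n, hn1, hn2⟩ := ha y (by
        rw [div_le_iff₀ hc₁] at hXx
        linarith)
      refine ⟨n, fun _ => ⟨?_, hn2⟩⟩
      have h8 : y ^ (1 - κ) ≤ M := Real.rpow_le_rpow hy0.le hyX (by linarith)
      have h9 : 0 ≤ y ^ (1 - κ) := by positivity
      have h10 : K * y ^ (1 - κ) ≤ K' * M :=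
        (mul_le_mul_of_nonneg_right hKK h9).trans (mul_le_mul_of_nonneg_left h8 (by linarith))
      linarith
    · exact ⟨0, fun h => absurd h hj⟩
  choose g hg using hgrid
  refine ⟨fun j => g (if j < J then j else 0), fun j => ?_, fun j hj j' hj' h => ?_⟩
  · set i := if j < J then j else 0 with hi
    have hi' : i < J ∨ i = 0 := by
      rw [hi]
      split_ifs with h
      · exact Or.inl h
      · exact Or.inr rfl
    obtain ⟨h1, h2⟩ := hg i hi'
    have h7 : 0 < K' * M := by positivity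
    constructor
    · refine le_trans ?_ h1
      rcases hi' with h | h
      · have h6 : (i : ℝ) + 1 ≤ J := by exact_mod_cast h
        nlinarith
      · rw [h]
        push_cast
        linarith
    · refine h2.trans ?_
      have : 0 ≤ 2 * K' * M * i := by positivity
      linarith
  · simp only [if_pos hj, if_pos hj'] at h
    have key : ∀ i i' : ℕ, i < i' → i' < J → g i = g i' → False := by
      intro i i' hii hi' h
      obtain ⟨h1, h2⟩ := hg i (Or.inl (by omega))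
      obtain ⟨h3, h4⟩ := hg i' (Or.inl hi')
      rw [h] at h1
      have h6 : (i : ℝ) + 1 ≤ i' := by exact_mod_cast hii
      have h7 : 0 < K' * M := by positivity
      nlinarith
    rcases lt_trichotomy j j' with h' | h' | h'
    · exact (key j j' h' hj' h).elim
    · exact h'
    · exact (key j' j h' hj h.symm).elim

/-- the low part: the perturbed elements with `a n ≤ Y`, and, artificially, all numbers `≥ Y` -/
def low {ι : Type} (v : ι → ℕ) (Y : ℝ) (x : ι → ℕ) : Set ℕ :=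
  {c | (∃ i, (v i : ℝ) ≤ Y ∧ c = v i + x i) ∨ Y ≤ (c : ℝ)}

lemma gap_low {κ K x₀ ε : ℝ} (hκ : 0 < κ) (hκ1 : κ ≤ 1 / 2) (hε : 0 < ε) (hε1 : ε ≤ 1 / 2)
    {a : ℕ → ℕ} (ha : GapS κ K x₀ a) {X Y : ℝ} (hYX : Y ≤ X) {x : {n // (a n : ℝ) ≤ X} → ℕ}
    (hx : ∀ i, (x i : ℝ) ≤ (a i.1 : ℝ) ^ ε) :
    Gap κ (|K| + 2) (max 4 (2 * |x₀|)) (low (fun i : {n // (a n : ℝ) ≤ X} => a i.1) Y x) := by
  intro y hy
  have hy4 : 4 ≤ y := (le_max_left _ _).trans hy
  have hy0 : 2 * |x₀| ≤ y := (le_max_right _ _).trans hy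
  have hypos : 0 < y := by linarith
  have hp1 : 1 ≤ y ^ (1 - κ) := Real.one_le_rpow (by linarith) (by linarith)
  have hK0 : 0 ≤ |K| := abs_nonneg _
  rcases lt_or_ge (Y + 1) y with h | h
  · refine ⟨⌊y⌋₊, Or.inr ?_, ?_, Nat.floor_le hypos.le⟩
    · have := Nat.sub_one_lt_floor y
      linarith
    · have := Nat.sub_one_lt_floor y
      nlinarith
  · have hyε1 : 1 ≤ y ^ ε := Real.one_le_rpow (by linarith) hε.le
    have hyε2 : y ^ ε ≤ y / 2 := by
      have h1 : y ^ ε ≤ y ^ (1 / 2 : ℝ) := Real.rpow_le_rpow_of_exponent_le (by linarith) hε1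
      have h2 : y ^ (1 / 2 : ℝ) * y ^ (1 / 2 : ℝ) = y := by
        rw [← Real.rpow_add hypos]; norm_num
      have h3 : 2 ≤ y ^ (1 / 2 : ℝ) := by
        have h4 : (4 : ℝ) ^ (1 / 2 : ℝ) ≤ y ^ (1 / 2 : ℝ) :=
          Real.rpow_le_rpow (by norm_num) hy4 (by norm_num)
        have h5 : (4 : ℝ) ^ (1 / 2 : ℝ) = 2 := by
          rw [show (4 : ℝ) = 2 ^ (2 : ℝ) by norm_num, ← Real.rpow_mul (by norm_num)]
          norm_num
        linarith
      nlinarith
    have hyε3 : y ^ ε ≤ y ^ (1 - κ) :=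
      Real.rpow_le_rpow_of_exponent_le (by linarith) (by linarith)
    obtain ⟨n, hn1, hn2⟩ := ha (y - y ^ ε) (by
      have := le_abs_self x₀
      linarith)
    have hnX : (a n : ℝ) ≤ X := by linarith
    have hxn := hx ⟨n, hnX⟩
    simp only at hxn
    refine ⟨a n + x ⟨n, hnX⟩, Or.inl ⟨⟨n, hnX⟩, ?_, rfl⟩, ?_, ?_⟩
    · simp only
      linarith
    · push_cast
      have h1 : (y - y ^ ε) ^ (1 - κ) ≤ y ^ (1 - κ) :=
        Real.rpow_le_rpow (by linarith) (by linarith) (by linarith)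
      have h2 : 0 ≤ (y - y ^ ε) ^ (1 - κ) := Real.rpow_nonneg (by linarith) _
      have h3 : K * (y - y ^ ε) ^ (1 - κ) ≤ |K| * y ^ (1 - κ) :=
        (mul_le_mul_of_nonneg_right (le_abs_self K) h2).trans (mul_le_mul_of_nonneg_left h1 hK0)
      have h4 : (0 : ℝ) ≤ x ⟨n, hnX⟩ := by positivity
      linarith
    · push_cast
      have h5 : (a n : ℝ) ^ ε ≤ y ^ ε := Real.rpow_le_rpow (by positivity) (by linarith) hε.le
      linarith

end Pool.Agent.K3h70.RP
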