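import Mathlib
import Pool.Agent.K3h70.RP.Zone

/-! # Few configurations fail (helper70) -/

set_option autoImplicit false

open Finset

namespace Pool.Agent.K3h70.RP

open Pool.Agent.K3h70.WA

open Classical in
/-- a sum of at most `t` elements of `A` in `[n - N, n]` -/
noncomputable def pick (A : Set ℕ) (t : ℕ) (n : ℕ) (N : ℝ) : ℕ :=
  if h : ∃ u, Rep A t u ∧ u ≤ n ∧ (n : ℝ) - u ≤ N then h.choose else 0

lemma pick_spec {A : Set ℕ} {t n : ℕ} {N : ℝ} (h : ∃ u, Rep A t u ∧ u ≤ n ∧ (n : ℝ) - u ≤ N) :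
    Rep A t (pick A t n N) ∧ pick A t n N ≤ n ∧ (n : ℝ) - pick A t n N ≤ N := by
  rw [pick, dif_pos h]
  exact h.choose_spec

lemma enc_inj {m A A' j j' : ℕ} (hj : j < m) (hj' : j' < m) (h : A * m + j = A' * m + j') :
    A = A' ∧ j = j' := by
  have hm : 0 < m := by omega
  have h1 : (A * m + j) / m = A := by
    rw [add_comm, Nat.add_mul_div_right _ _ hm, Nat.div_eq_of_lt hj, zero_add]
  have h2 : (A' * m + j') / m = A' := by
    rw [add_comm, Nat.add_mul_div_right _ _ hm, Nat.div_eq_of_lt hj', zero_add]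
  have h3 : A = A' := by rw [← h1, h, h2]
  subst h3
  exact ⟨rfl, by omega⟩

lemma enc_lt {L r m l i j : ℕ} (hl : l < L) (hi : i < r) (hj : j < m) :
    (l * r + i) * m + j < L * r * m := by
  have h1 : l * r + i + 1 ≤ L * r := by
    calc l * r + i + 1 ≤ l * r + r := by omega
      _ = (l + 1) * r := by ring
      _ ≤ L * r := Nat.mul_le_mul_right _ hl
  calc (l * r + i) * m + j < (l * r + i) * m + m := by omega
    _ = (l * r + i + 1) * m := by ring
    _ ≤ L * r * m := Nat.mul_le_mul_right _ h1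

lemma low_list {ι : Type} {v : ι → ℕ} {Y : ℝ} {x : ι → ℕ} {t u : ℕ} (h : Rep (low v Y x) t u)
    (hu : (u : ℝ) < Y) : ∃ l : List ι, l.length ≤ t ∧ (l.map fun i => v i + x i).sum = u := by
  obtain ⟨l, h1, h2, h3⟩ := h
  have key : ∀ l : List ℕ, (∀ c ∈ l, ∃ i, c = v i + x i) →
      ∃ l' : List ι, l'.length = l.length ∧ (l'.map fun i => v i + x i) = l := by
    intro l
    induction l with
    | nil => intro _; exact ⟨[], rfl, rfl⟩
    | cons c l ih =>
      intro h
      obtain ⟨l', h4, h5⟩ := ih fun c' hc' => h c' (by simp [hc'])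
      obtain ⟨i, hi⟩ := h c (by simp)
      exact ⟨i :: l', by simp [h4], by rw [List.map_cons, h5, hi]⟩
  obtain ⟨l', h4, h5⟩ := key l (by
    intro c hc
    rcases h1 c hc with ⟨i, -, h6⟩ | h6
    · exact ⟨i, h6⟩
    · exfalso
      have h7 : c ≤ u := by
        rw [← h3]
        exact List.le_sum_of_mem hc
      have h8 : (c : ℝ) ≤ u := by exact_mod_cast h7
      linarith)
  exact ⟨l', by rw [h4]; exact h2, by rw [h5, h3]⟩

open Classical in
theorem core {κ K x₀ ε : ℝ} (hκ : 0 < κ) (hκ1 : κ ≤ 1 / 2) (hε : 0 < ε) (hε1 : ε ≤ 1 / 2) :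
    ∃ S : ℕ, (S : ℝ) ≤ (Real.log (1 / ε) + 5) / κ ∧ ∃ q : ℝ, 0 < q ∧ q ≤ 1 ∧ ∃ X₀ : ℝ,
      ∀ a : ℕ → ℕ, GapS κ K x₀ a → ∀ (Xn : ℕ) (X : ℝ), X = Xn → X₀ ≤ X →
        ∀ [Fintype {n // (a n : ℝ) ≤ X}],
        (((conf fun i : {n // (a n : ℝ) ≤ X} => ⌊(a i.1 : ℝ) ^ ε⌋₊).filter fun x =>
          ¬ ∃ l : List {n // (a n : ℝ) ≤ X}, l.length ≤ S ∧
            (l.map fun i => a i.1 + x i).sum = Xn).card : ℝ) ≤
          (1 - q) ^ ⌊X ^ (κ / 4)⌋₊ *
            (conf fun i : {n // (a n : ℝ) ≤ X} => ⌊(a i.1 : ℝ) ^ ε⌋₊).card := by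
  have hκlt : κ < 1 := by linarith
  -- the number of greedy steps
  obtain ⟨t, ht1, ht2⟩ := steps hκ hκlt (show 0 < ε / 2 by positivity) (by linarith)
  -- the number of small elements
  set r : ℕ := ⌈2 * ε / κ⌉₊ + 1 with hr
  have hr1 : 1 ≤ r := by omega
  have hrR : (1 : ℝ) ≤ r := by exact_mod_cast hr1
  have hrlow : 2 * ε / κ + 1 ≤ r := by
    rw [hr]; push_cast
    have := Nat.le_ceil (2 * ε / κ)
    linarith
  have hrup : (r : ℝ) ≤ 2 * ε / κ + 2 := by
    rw [hr]; push_cast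
    have := Nat.ceil_lt_add_one (show 0 ≤ 2 * ε / κ by positivity)
    linarith
  set δ : ℝ := 1 / (8 * r) with hδ
  have hδ0 : 0 < δ := by rw [hδ]; positivity
  have hrδ : r * δ = 1 / 8 := by rw [hδ]; field_simp
  have hδ1 : δ ≤ 1 / 8 := by
    rw [← hrδ]
    nlinarith
  set ρ : ℝ := δ ^ (1 / ε) with hρ
  have hρ0 : 0 < ρ := by rw [hρ]; positivity
  have hρε : ρ ^ ε = δ := by
    rw [hρ, ← Real.rpow_mul hδ0.le, one_div_mul_cancel hε.ne', Real.rpow_one]
  have hρδ : ρ ≤ δ := by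
    rw [hρ]
    calc δ ^ (1 / ε) ≤ δ ^ (1 : ℝ) := by
          apply Real.rpow_le_rpow_of_exponent_ge hδ0 (by linarith)
          rw [le_div_iff₀ hε]; linarith
      _ = δ := Real.rpow_one _
  have hrρ : r * ρ ≤ 1 / 8 := by
    rw [← hrδ]
    exact mul_le_mul_of_nonneg_left hρδ (by positivity)
  have hr8 : ρ * (1 / (8 * r)) * r = ρ / 8 := by field_simp
  have h78 : 7 / 8 ≤ 1 - 1 / (8 * (r : ℝ)) := by
    have : 1 / (8 * (r : ℝ)) ≤ 1 / 8 := by
      apply one_div_le_one_div_of_le (by norm_num)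
      linarith
    linarith
  refine ⟨1 + r + t, ?_, δ / 8, by positivity, by linarith, ?_⟩
  · -- the number of summands
    push_cast
    have h1 : Real.log (1 / (ε / 2)) = Real.log (1 / ε) + Real.log 2 := by
      rw [← Real.log_mul (by positivity) (by norm_num)]
      congr 1
      field_simp
    rw [h1] at ht2
    have h2 := Real.log_two_lt_d9
    rw [le_div_iff₀ hκ] at ht2 ⊢
    have h3 : (r : ℝ) * κ ≤ 2 * ε + 2 * κ := by
      calc (r : ℝ) * κ ≤ (2 * ε / κ + 2) * κ := mul_le_mul_of_nonneg_right hrup hκ.le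
        _ = 2 * ε + 2 * κ := by field_simp
    nlinarith
  -- constants
  set K' : ℝ := |K| + 2 with hK'
  have hK'1 : 1 ≤ K' := by
    have := abs_nonneg K
    rw [hK']; linarith
  set x₁ : ℝ := max 4 (2 * |x₀|) with hx₁
  -- the zones
  have hbig1 : 0 < 1 - r * ρ - ρ / 4 := by nlinarith
  obtain ⟨X₁, hX₁⟩ := zone (K := K) (x₀ := x₀) (σ := κ / 4) (C := 1) hκ hκlt hbig1
    (show 1 - r * ρ - ρ / 4 < 1 - r * ρ - ρ / 8 by linarith)
    (by nlinarith) (by linarith)
  have hsm1 : 0 < ρ * (1 - 1 / (8 * r)) := by positivity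
  obtain ⟨X₂, hX₂⟩ := zone (K := K) (x₀ := x₀) (σ := 3 * κ / 4) (C := 2 * r) hκ hκlt hsm1
    (show ρ * (1 - 1 / (8 * r)) < ρ by
      have : 0 < 1 / (8 * (r : ℝ)) := by positivity
      nlinarith)
    (by linarith) (by linarith)
  have hlarge : ∃ X₃ : ℝ, ∀ X : ℝ, X₃ ≤ X → 1 ≤ X ∧ 64 ≤ X ^ ε ∧ 4 * x₁ ≤ X ^ ε ∧
      4 * K' ^ (1 / κ) ≤ X ^ (ε / 2) ∧ 8 / ρ ≤ X ^ (1 - ε) ∧ 2 ≤ X ^ (κ / 2) := by
    have t1 := tendsto_rpow_atTop hε
    have t2 := tendsto_rpow_atTop (show 0 < ε / 2 by positivity)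
    have t3 := tendsto_rpow_atTop (show 0 < 1 - ε by linarith)
    have t4 := tendsto_rpow_atTop (show 0 < κ / 2 by positivity)
    obtain ⟨X₃, h⟩ := Filter.eventually_atTop.1 ((Filter.eventually_ge_atTop (1 : ℝ)).and
      ((t1.eventually_ge_atTop 64).and ((t1.eventually_ge_atTop (4 * x₁)).and
      ((t2.eventually_ge_atTop (4 * K' ^ (1 / κ))).and ((t3.eventually_ge_atTop (8 / ρ)).and
      (t4.eventually_ge_atTop 2))))))
    exact ⟨X₃, h⟩
  obtain ⟨X₃, hX₃⟩ := hlarge
  refine ⟨max X₁ (max X₂ X₃), fun a ha Xn X hX hXn => ?_⟩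
  intro _inst
  obtain ⟨f1, f2, f3, f4, f5, f6⟩ := hX₃ X (((le_max_right _ _).trans (le_max_right _ _)).trans hXn)
  have hXpos : 0 < X := by linarith
  set E : ℝ := X ^ ε with hE
  have hE0 : 0 < E := by linarith
  -- block sizes
  set L : ℕ := ⌊X ^ (κ / 4)⌋₊ with hL
  set m : ℕ := ⌈X ^ (κ / 2)⌉₊ with hm
  have hLX : (L : ℝ) ≤ X ^ (κ / 4) := Nat.floor_le (by positivity)
  have hmX : (m : ℝ) ≤ 2 * X ^ (κ / 2) := by
    have := Nat.ceil_lt_add_one (show 0 ≤ X ^ (κ / 2) by positivity)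
    linarith
  have hmX' : X ^ (κ / 2) ≤ m := Nat.le_ceil _
  have hLrm : ((L * r * m : ℕ) : ℝ) ≤ 2 * r * X ^ (3 * κ / 4) := by
    push_cast
    have e : X ^ (3 * κ / 4) = X ^ (κ / 4) * X ^ (κ / 2) := by
      rw [← Real.rpow_add hXpos]; congr 1; ring
    rw [e]
    calc (L : ℝ) * r * m ≤ X ^ (κ / 4) * r * (2 * X ^ (κ / 2)) := by
          apply mul_le_mul _ hmX (by positivity) (by positivity)
          exact mul_le_mul_of_nonneg_right hLX (by positivity)
      _ = _ := by ring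
  obtain ⟨g₁, hg₁, hg₁'⟩ := hX₁ a ha X ((le_max_left _ _).trans hXn) L (by rw [one_mul]; exact hLX)
  obtain ⟨g₂, hg₂, hg₂'⟩ := hX₂ a ha X (((le_max_left _ _).trans (le_max_right _ _)).trans hXn)
    (L * r * m) hLrm
  have hc1X : ∀ j, (a (g₁ j) : ℝ) ≤ X := fun j => by
    have := (hg₁ j).2
    have h1 : (0 : ℝ) ≤ r * ρ := by positivity
    nlinarith
  have hc2X : ∀ j, (a (g₂ j) : ℝ) ≤ X := fun j => by
    have := (hg₂ j).2
    nlinarith
  -- the blocks
  set b : ℕ → {n // (a n : ℝ) ≤ X} := fun l => ⟨g₁ l, hc1X l⟩ with hb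
  set e : ℕ → Fin r → Fin m → {n // (a n : ℝ) ≤ X} := fun l i j =>
    ⟨g₂ ((l * r + i) * m + j), hc2X _⟩ with he
  set w : {n // (a n : ℝ) ≤ X} → ℕ := fun i => ⌊(a i.1 : ℝ) ^ ε⌋₊ with hw
  set v : {n // (a n : ℝ) ≤ X} → ℕ := fun i => a i.1 with hv
  set Y : ℝ := ρ * X / 2 with hY
  have hYX : Y ≤ X := by rw [hY]; nlinarith
  have hbv : ∀ l, (1 - r * ρ - ρ / 4) * X ≤ v (b l) ∧ (v (b l) : ℝ) ≤ (1 - r * ρ - ρ / 8) * X :=
    fun l => hg₁ l
  have hev : ∀ l i j, ρ * (1 - 1 / (8 * r)) * X ≤ v (e l i j) ∧ (v (e l i j) : ℝ) ≤ ρ * X :=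
    fun l i j => hg₂ _
  have hbhalf : ∀ l, X / 2 ≤ v (b l) := fun l => by
    refine le_trans ?_ (hbv l).1
    nlinarith
  have he78 : ∀ l i j, 7 / 8 * (ρ * X) ≤ v (e l i j) := fun l i j => by
    refine le_trans ?_ (hev l i j).1
    have : 0 < ρ * X := by positivity
    nlinarith
  have hρX : 0 < ρ * X := by positivity
  -- the sums
  set P : ℕ → (Fin r → Fin m) → ℕ := fun l f => v (b l) + ∑ i, v (e l i (f i)) with hP
  have hPlow : ∀ l f, (1 - 3 * ρ / 8) * X ≤ P l f := by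
    intro l f
    rw [hP]
    push_cast
    have h1 : (r : ℝ) * (ρ * (1 - 1 / (8 * r)) * X) ≤ ∑ i, (v (e l i (f i)) : ℝ) := by
      have h2 : ∑ _i : Fin r, ρ * (1 - 1 / (8 * r)) * X = r * (ρ * (1 - 1 / (8 * r)) * X) := by
        rw [Finset.sum_const, Finset.card_univ, Fintype.card_fin, nsmul_eq_mul]
      rw [← h2]
      exact Finset.sum_le_sum fun i _ => (hev l i (f i)).1
    have h3 : (r : ℝ) * (ρ * (1 - 1 / (8 * r)) * X) = (r * ρ - ρ / 8) * X := by
      have : (r : ℝ) * (ρ * (1 - 1 / (8 * r)) * X) = (r * ρ - ρ * (1 / (8 * r)) * r) * X := by ring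
      rw [this, hr8]
    have h4 := (hbv l).1
    rw [h3] at h1
    nlinarith
  have hPup : ∀ l f, (P l f : ℝ) ≤ (1 - ρ / 8) * X := by
    intro l f
    rw [hP]
    push_cast
    have h1 : ∑ i, (v (e l i (f i)) : ℝ) ≤ r * (ρ * X) := by
      have h2 : ∑ _i : Fin r, ρ * X = r * (ρ * X) := by
        rw [Finset.sum_const, Finset.card_univ, Fintype.card_fin, nsmul_eq_mul]
      rw [← h2]
      exact Finset.sum_le_sum fun i _ => (hev l i (f i)).2
    have h4 := (hbv l).2
    nlinarith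
  have hPX : ∀ l f, P l f ≤ Xn := by
    intro l f
    have h1 := hPup l f
    have h2 : (P l f : ℝ) ≤ X := by nlinarith
    rw [hX] at h2
    exact_mod_cast h2
  set D : ℕ → (Fin r → Fin m) → ℕ := fun l f => Xn - P l f with hD
  have hDR : ∀ l f, (D l f : ℝ) = X - P l f := by
    intro l f
    rw [hD]
    simp only
    rw [Nat.cast_sub (hPX l f), hX]
  have hDlow : ∀ l f, ρ * X / 8 ≤ D l f := by
    intro l f
    rw [hDR]
    have := hPup l f
    linarith
  have hDup : ∀ l f, (D l f : ℝ) ≤ 3 / 8 * (ρ * X) := by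
    intro l f
    rw [hDR]
    have := hPlow l f
    linarith
  set lo : ℕ := ⌈E / 8⌉₊ with hlo
  have hlo1 : E / 8 ≤ lo := Nat.le_ceil _
  have hlo2 : (lo : ℝ) ≤ E / 8 + 1 := (Nat.ceil_lt_add_one (by positivity)).le
  have hEX : E * X ^ (1 - ε) = X := by
    rw [hE, ← Real.rpow_add hXpos]
    have : ε + (1 - ε) = 1 := by ring
    rw [this, Real.rpow_one]
  have hEρ : E ≤ ρ * X / 8 := by
    rw [div_le_iff₀ hρ0] at f5
    have : 8 * E ≤ X ^ (1 - ε) * ρ * E := mul_le_mul_of_nonneg_right f5 hE0.le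
    nlinarith
  have hloD : ∀ l f, lo ≤ D l f := by
    intro l f
    have h1 := hDlow l f
    have h2 : (lo : ℝ) ≤ D l f := by linarith
    exact_mod_cast h2
  set T : ℕ → ({n // (a n : ℝ) ≤ X} → ℕ) → (Fin r → Fin m) → ℕ := fun l x f =>
    D l f - pick (low v Y x) t (D l f - lo) (E / 4) with hT
  -- the greedy choice
  have hpick : ∀ x ∈ conf w, ∀ l f, Rep (low v Y x) t (pick (low v Y x) t (D l f - lo) (E / 4)) ∧
      pick (low v Y x) t (D l f - lo) (E / 4) ≤ D l f - lo ∧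
      ((D l f - lo : ℕ) : ℝ) - pick (low v Y x) t (D l f - lo) (E / 4) ≤ E / 4 := by
    intro x hx l f
    apply pick_spec
    have hxw : ∀ i, (x i : ℝ) ≤ (a i.1 : ℝ) ^ ε := by
      intro i
      have h1 : x i ≤ w i := mem_conf.1 hx i
      have h2 : (x i : ℝ) ≤ w i := by exact_mod_cast h1
      exact h2.trans (Nat.floor_le (by positivity))
    have hgap := gap_low hκ hκ1 hε hε1 ha hYX hxw
    obtain ⟨u, hu1, hu2, hu3⟩ := greedy hκ (by linarith) hK'1 hgap (E / 4) (by linarith)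
      (by linarith) (D l f - lo) t
    refine ⟨u, hu1, hu2, ?_⟩
    rcases hu3 with h | h
    · exact h
    · refine h.trans ?_
      have hn : ((D l f - lo : ℕ) : ℝ) ≤ X := by
        have h1 : ((D l f - lo : ℕ) : ℝ) ≤ D l f := by exact_mod_cast Nat.sub_le _ _
        have h2 := hDup l f
        nlinarith
      have h1 : K' ^ ((1 - (1 - κ) ^ t) / κ) ≤ K' ^ (1 / κ) := by
        apply Real.rpow_le_rpow_of_exponent_le hK'1
        gcongr
        have : 0 ≤ (1 - κ) ^ t := pow_nonneg (by linarith) _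
        linarith
      have h2 : ((D l f - lo : ℕ) : ℝ) ^ ((1 - κ) ^ t) ≤ X ^ (ε / 2) := by
        calc ((D l f - lo : ℕ) : ℝ) ^ ((1 - κ) ^ t) ≤ X ^ ((1 - κ) ^ t) :=
              Real.rpow_le_rpow (by positivity) hn (pow_nonneg (by linarith) _)
          _ ≤ X ^ (ε / 2) := Real.rpow_le_rpow_of_exponent_le f1 ht1
      have h3 : X ^ (ε / 2) * X ^ (ε / 2) = E := by
        rw [hE, ← Real.rpow_add hXpos]; congr 1; ring
      have h4 : 0 < X ^ (ε / 2) := by positivity
      have h5 : 0 < K' ^ (1 / κ) := by positivity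
      calc K' ^ ((1 - (1 - κ) ^ t) / κ) * ((D l f - lo : ℕ) : ℝ) ^ ((1 - κ) ^ t)
          ≤ K' ^ (1 / κ) * X ^ (ε / 2) := mul_le_mul h1 h2 (by positivity) h5.le
        _ ≤ E / 4 := by nlinarith
  have hfail := fail_count (w := w) (L := L) b e
    (by
      intro l hl l' hl' h
      rw [hb] at h
      simp only [Subtype.mk.injEq] at h
      exact hg₁' l hl l' hl' h)
    (by
      intro l _ l' _ i j h
      have h1 := (hev l i j).2
      have h2 := hbhalf l'
      rw [h] at h1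
      nlinarith)
    (by
      intro l hl l' hl' i j i' j' h
      rw [he] at h
      simp only [Subtype.mk.injEq] at h
      have h1 := hg₂' _ (enc_lt hl i.2 j.2) _ (enc_lt hl' i'.2 j'.2) h
      obtain ⟨h2, h3⟩ := enc_inj j.2 j'.2 h1
      obtain ⟨h4, h5⟩ := enc_inj i.2 i'.2 h2
      exact ⟨h4, Fin.ext h5, Fin.ext h3⟩)
    T
    (by
      intro l _ l' _ x _ y hy
      have hlow : low v Y x = low v Y y := by
        have hxy : ∀ i, (v i : ℝ) ≤ Y → y i = x i := by
          intro i hi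
          apply (mem_cls.1 hy).2
          rw [mem_bl]
          rintro (h | ⟨j, j', h⟩)
          · have h1 := hbhalf l'
            rw [← h] at h1
            rw [hY] at hi
            nlinarith
          · have h1 := he78 l' j j'
            rw [h] at h1
            rw [hY] at hi
            linarith
        ext c
        unfold low
        simp only [Set.mem_ofPred_eq]
        constructor
        · rintro (⟨i, h1, h2⟩ | h)
          · exact Or.inl ⟨i, h1, by rw [hxy i h1]; exact h2⟩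
          · exact Or.inr h
        · rintro (⟨i, h1, h2⟩ | h)
          · exact Or.inl ⟨i, h1, by rw [← hxy i h1]; exact h2⟩
          · exact Or.inr h
      rw [hT]
      simp only [hlow])
    (by
      intro l _ x hx f
      obtain ⟨-, h2, h3⟩ := hpick x hx l f
      have h4 := hloD l f
      rw [hT]
      simp only
      set u := pick (low v Y x) t (D l f - lo) (E / 4) with hu
      constructor
      · have h5 : ((∑ i, w (e l i (f i)) : ℕ) : ℝ) ≤ E / 8 := by
          push_cast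
          have h6 : ∀ i ∈ (univ : Finset (Fin r)), (w (e l i (f i)) : ℝ) ≤ δ * E := by
            intro i _
            rw [hw]
            refine (Nat.floor_le (by positivity)).trans ?_
            calc (v (e l i (f i)) : ℝ) ^ ε ≤ (ρ * X) ^ ε :=
                  Real.rpow_le_rpow (by positivity) (hev l i (f i)).2 hε.le
              _ = δ * E := by rw [Real.mul_rpow hρ0.le hXpos.le, hρε]
          calc ∑ i, (w (e l i (f i)) : ℝ) ≤ ∑ _i : Fin r, δ * E := Finset.sum_le_sum h6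
            _ = (r * δ) * E := by
                rw [Finset.sum_const, Finset.card_univ, Fintype.card_fin, nsmul_eq_mul]; ring
            _ = E / 8 := by rw [hrδ]; ring
        have h7 : ((∑ i, w (e l i (f i)) : ℕ) : ℝ) ≤ lo := h5.trans hlo1
        have h8 : ∑ i, w (e l i (f i)) ≤ lo := by exact_mod_cast h7
        omega
      · rw [hw]
        apply Nat.le_floor
        have h9 : ((D l f - u : ℕ) : ℝ) = ((D l f - lo : ℕ) : ℝ) - u + lo := by
          rw [Nat.cast_sub (by omega), Nat.cast_sub h4]; ring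
        rw [h9]
        have h10 : E / 2 ≤ (v (b l) : ℝ) ^ ε := by
          calc E / 2 ≤ (1 / 2 : ℝ) ^ ε * E := by
                have : (1 / 2 : ℝ) ≤ (1 / 2 : ℝ) ^ ε := by
                  calc (1 / 2 : ℝ) = (1 / 2 : ℝ) ^ (1 : ℝ) := (Real.rpow_one _).symm
                    _ ≤ (1 / 2 : ℝ) ^ ε :=
                      Real.rpow_le_rpow_of_exponent_ge (by norm_num) (by norm_num) (by linarith)
                nlinarith
            _ = (1 / 2 * X) ^ ε := by rw [Real.mul_rpow (by norm_num) hXpos.le]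
            _ ≤ (v (b l) : ℝ) ^ ε :=
                Real.rpow_le_rpow (by positivity) (by linarith [hbhalf l]) hε.le
        have h11 : (a (b l).1 : ℝ) ^ ε = (v (b l) : ℝ) ^ ε := rfl
        rw [h11]
        linarith)
    (ws := ⌊(7 / 8 * (ρ * X)) ^ ε⌋₊)
    (by
      intro l _ i j
      rw [hw]
      exact Nat.floor_le_floor (Real.rpow_le_rpow (by positivity) (he78 l i j) hε.le))
    (by
      have h1 : ((⌊(7 / 8 * (ρ * X)) ^ ε⌋₊ : ℕ) : ℝ) ≤ E := by
        refine (Nat.floor_le (by positivity)).trans ?_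
        apply Real.rpow_le_rpow (by positivity) _ hε.le
        nlinarith
      have h2 : X ^ (ε + κ / 2) ≤ (m : ℝ) ^ r := by
        calc X ^ (ε + κ / 2) ≤ X ^ (κ / 2 * r) := by
              apply Real.rpow_le_rpow_of_exponent_le f1
              have : (2 * ε / κ + 1) * (κ / 2) ≤ r * (κ / 2) :=
                mul_le_mul_of_nonneg_right hrlow (by positivity)
              have h3 : (2 * ε / κ + 1) * (κ / 2) = ε + κ / 2 := by field_simp
              linarith
          _ = (X ^ (κ / 2)) ^ r := by rw [Real.rpow_mul hXpos.le, Real.rpow_natCast]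
          _ ≤ (m : ℝ) ^ r := pow_le_pow_left₀ (by positivity) hmX' _
      have h3 : E * 2 ≤ X ^ (ε + κ / 2) := by
        rw [Real.rpow_add hXpos]
        exact mul_le_mul_of_nonneg_left f6 hE0.le
      have h4 : ((⌊(7 / 8 * (ρ * X)) ^ ε⌋₊ + 1 : ℕ) : ℝ) ≤ ((m ^ r : ℕ) : ℝ) := by
        push_cast
        linarith
      exact_mod_cast h4)
    (q := δ / 8) (by linarith)
    (by
      intro l _
      have h1 : 7 / 8 * (δ * E) ≤ ((⌊(7 / 8 * (ρ * X)) ^ ε⌋₊ : ℕ) : ℝ) + 1 := by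
        have h2 : (7 / 8 * (ρ * X)) ^ ε < ((⌊(7 / 8 * (ρ * X)) ^ ε⌋₊ : ℕ) : ℝ) + 1 :=
          Nat.lt_floor_add_one _
        refine le_trans ?_ h2.le
        rw [Real.mul_rpow (by norm_num) hρX.le, Real.mul_rpow hρ0.le hXpos.le, hρε]
        have h3 : (7 / 8 : ℝ) ≤ (7 / 8 : ℝ) ^ ε := by
          calc (7 / 8 : ℝ) = (7 / 8 : ℝ) ^ (1 : ℝ) := (Real.rpow_one _).symm
            _ ≤ (7 / 8 : ℝ) ^ ε :=
              Real.rpow_le_rpow_of_exponent_ge (by norm_num) (by norm_num) (by linarith)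
        exact mul_le_mul_of_nonneg_right h3 (by positivity)
      have h4 : (w (b l) : ℝ) + 1 ≤ 2 * E := by
        have h5 : (w (b l) : ℝ) ≤ E := by
          rw [hw]
          refine (Nat.floor_le (by positivity)).trans ?_
          exact Real.rpow_le_rpow (by positivity) (b l).2 hε.le
        linarith
      have h5 : (0 : ℝ) < 2 * (w (b l) + 1) := by positivity
      rw [le_div_iff₀ h5]
      have h6 : 0 < δ * E := by positivity
      nlinarith)
  refine le_trans ?_ hfail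
  rw [Nat.cast_le]
  apply Finset.card_le_card
  intro x hx
  rw [mem_filter] at hx ⊢
  refine ⟨hx.1, fun l _ hex => hx.2 ?_⟩
  obtain ⟨f, hf⟩ := hex
  obtain ⟨h1, h2, h3⟩ := hpick x hx.1 l f
  have h4 := hloD l f
  have h5 := hPX l f
  rw [hT] at hf
  simp only at hf
  set u := pick (low v Y x) t (D l f - lo) (E / 4) with hu
  have huY : (u : ℝ) < Y := by
    have h6 : (u : ℝ) ≤ D l f := by
      have : u ≤ D l f := by omega
      exact_mod_cast this
    have h7 := hDup l f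
    rw [hY]
    linarith
  obtain ⟨l', hl'1, hl'2⟩ := low_list h1 huY
  refine ⟨b l :: (List.ofFn (fun i => e l i (f i)) ++ l'), ?_, ?_⟩
  · rw [List.length_cons, List.length_append, List.length_ofFn]
    omega
  · rw [List.map_cons, List.sum_cons, List.map_append, List.sum_append, List.map_ofFn,
      List.sum_ofFn]
    simp only [Function.comp_def]
    rw [Finset.sum_add_distrib]
    have h8 : (l'.map fun i => a i.1 + x i).sum = u := hl'2
    rw [h8]
    have h9 : D l f = Xn - P l f := rfl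
    have h10 : P l f = a (b l).1 + ∑ i, a (e l i (f i)).1 := rfl
    omega

end Pool.Agent.K3h70.RP
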