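import Mathlib
import Pool.Agent.K3h70.RP.Blocks

/-! # From configurations to probabilities (helper70) -/

set_option autoImplicit false

open Finset MeasureTheory ProbabilityTheory Filter
open scoped ENNReal

namespace Pool.Agent.K3h70.RP

lemma card_conf {ι : Type} [Fintype ι] [DecidableEq ι] (w : ι → ℕ) :
    (conf w).card = ∏ i, (w i + 1) := by
  rw [conf, Fintype.card_piFinset]
  exact Finset.prod_congr rfl fun i _ => card_range _

/-- the probability of a set of configurations of independent uniform variables -/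
lemma prob_le {Ω : Type} [MeasurableSpace Ω] (μ : Measure Ω) [IsProbabilityMeasure μ]
    {ξ : ℕ → Ω → ℕ} (hmeas : ∀ n, Measurable (ξ n)) (hind : iIndepFun ξ μ) {w : ℕ → ℕ}
    (hunif : ∀ n, ∀ j ≤ w n, μ {ω | ξ n ω = j} = 1 / ((w n : ℝ≥0∞) + 1))
    {p : ℕ → Prop} [Fintype {n // p n}] (Q : ({n // p n} → ℕ) → Prop) [DecidablePred Q] {θ : ℝ}
    (hQ : (((conf fun i : {n // p n} => w i.1).filter Q).card : ℝ) ≤
      θ * (conf fun i : {n // p n} => w i.1).card) :
    μ {ω | Q fun i => ξ i.1 ω} ≤ ENNReal.ofReal θ := by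
  classical
  -- the values are in the range almost surely
  have hrange : ∀ n, μ {ω | w n < ξ n ω} = 0 := by
    intro n
    have h1 : μ {ω | ξ n ω ≤ w n} = 1 := by
      have h2 : {ω | ξ n ω ≤ w n} = ⋃ j ∈ range (w n + 1), {ω | ξ n ω = j} := by
        ext ω
        simp
      rw [h2, measure_biUnion_finset]
      · rw [Finset.sum_congr rfl fun j hj => hunif n j (by rw [mem_range] at hj; omega)]
        rw [Finset.sum_const, card_range, nsmul_eq_mul]
        push_cast
        rw [one_div]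
        exact ENNReal.mul_inv_cancel (by simp) (by simp)
      · intro i _ j _ hij
        rw [Function.onFun, Set.disjoint_left]
        intro ω h3 h4
        exact hij (h3.symm.trans h4)
      · intro j _
        exact hmeas n (measurableSet_singleton j)
    have h3 : {ω | w n < ξ n ω} = {ω | ξ n ω ≤ w n}ᶜ := by
      ext ω
      simp
    rw [h3, prob_compl_eq_zero_iff]
    · exact h1
    · exact hmeas n measurableSet_Iic
  set C := conf fun i : {n // p n} => w i.1 with hC
  have hsub : {ω | Q fun i => ξ i.1 ω} ⊆ (⋃ i : {n // p n}, {ω | w i.1 < ξ i.1 ω}) ∪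
      ⋃ y ∈ C.filter Q, {ω | ∀ i : {n // p n}, ξ i.1 ω = y i} := by
    intro ω hω
    by_cases h : ∃ i : {n // p n}, w i.1 < ξ i.1 ω
    · left
      rw [Set.mem_iUnion]
      exact h
    · right
      push Not at h
      rw [Set.mem_iUnion₂]
      refine ⟨fun i => ξ i.1 ω, ?_, fun i => rfl⟩
      rw [mem_filter, hC, mem_conf]
      exact ⟨h, hω⟩
  have hone : ∀ y ∈ C, μ {ω | ∀ i : {n // p n}, ξ i.1 ω = y i} = ((C.card : ℕ) : ℝ≥0∞)⁻¹ := by
    intro y hy
    have hind' : iIndepFun (fun i : {n // p n} => ξ i.1) μ :=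
      hind.precomp Subtype.val_injective
    have h1 := hind'.measure_inter_preimage_eq_mul (S := (univ : Finset {n // p n}))
      (sets := fun i => {y i}) (fun i _ => measurableSet_singleton _)
    have h2 : (⋂ i ∈ (univ : Finset {n // p n}), (fun i : {n // p n} => ξ i.1) i ⁻¹' {y i}) =
        {ω | ∀ i : {n // p n}, ξ i.1 ω = y i} := by
      ext ω
      simp
    rw [h2] at h1
    rw [h1, hC, card_conf]
    push_cast
    rw [ENNReal.prod_inv_distrib]
    · apply Finset.prod_congr rfl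
      intro i _
      have h3 := hunif i.1 (y i) (mem_conf.1 hy i)
      rw [one_div] at h3
      exact h3
    · intro i _ j _ _
      right
      simp
  have h1 : μ (⋃ i : {n // p n}, {ω | w i.1 < ξ i.1 ω}) = 0 := by
    rw [measure_iUnion_null_iff]
    exact fun i => hrange i.1
  have h2 : μ (⋃ y ∈ C.filter Q, {ω | ∀ i : {n // p n}, ξ i.1 ω = y i}) ≤ ENNReal.ofReal θ := by
    refine (measure_biUnion_finset_le _ _).trans ?_
    rw [Finset.sum_congr rfl fun y hy => hone y (mem_filter.1 hy).1, Finset.sum_const,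
      nsmul_eq_mul]
    have hC0 : 0 < C.card := by
      rw [hC, card_conf]
      exact Finset.prod_pos fun i _ => Nat.succ_pos _
    have h3 : (((C.filter Q).card : ℕ) : ℝ≥0∞) ≤ ENNReal.ofReal θ * C.card := by
      rw [← ENNReal.ofReal_natCast, ← ENNReal.ofReal_natCast]
      have h4 : ENNReal.ofReal θ * ENNReal.ofReal ((C.card : ℕ) : ℝ) =
          ENNReal.ofReal (θ * (C.card : ℕ)) := by
        rw [ENNReal.ofReal_mul' (by positivity)]
      rw [h4]
      exact ENNReal.ofReal_le_ofReal hQ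
    rw [← div_eq_mul_inv]
    exact ENNReal.div_le_of_le_mul h3
  calc μ {ω | Q fun i => ξ i.1 ω} ≤ μ ((⋃ i : {n // p n}, {ω | w i.1 < ξ i.1 ω}) ∪
        ⋃ y ∈ C.filter Q, {ω | ∀ i : {n // p n}, ξ i.1 ω = y i}) := measure_mono hsub
    _ ≤ _ := measure_union_le _ _
    _ ≤ ENNReal.ofReal θ := by rw [h1, zero_add]; exact h2

/-- the failure probabilities are summable -/
lemma summable_fail {q σ : ℝ} (hq : 0 < q) (hq1 : q ≤ 1) (hσ : 0 < σ) :
    ∃ X₀ : ℕ, ∀ X : ℕ, X₀ ≤ X → (1 - q) ^ ⌊(X : ℝ) ^ σ⌋₊ ≤ 1 / (X : ℝ) ^ 2 := by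
  have h1 : (fun X : ℝ => Real.log X) =o[atTop] fun X : ℝ => X ^ σ :=
    isLittleO_log_rpow_atTop hσ
  have h2 := (h1.bound (show (0 : ℝ) < q / 4 by positivity))
  have h3 : ∀ᶠ X : ℝ in atTop, 2 ≤ X ^ σ := (tendsto_rpow_atTop hσ).eventually_ge_atTop 2
  have h4 := tendsto_natCast_atTop_atTop (R := ℝ) |>.eventually
    (h2.and (h3.and (eventually_ge_atTop (1 : ℝ))))
  obtain ⟨X₀, hX₀⟩ := eventually_atTop.1 h4
  refine ⟨X₀, fun X hX => ?_⟩
  obtain ⟨h5, h6, h7⟩ := hX₀ X hX
  have hlog : 0 ≤ Real.log X := Real.log_nonneg h7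
  rw [Real.norm_of_nonneg hlog, Real.norm_of_nonneg (by positivity)] at h5
  have hXpos : (0 : ℝ) < X := by linarith
  have h8 : (X : ℝ) ^ σ / 2 ≤ (⌊(X : ℝ) ^ σ⌋₊ : ℝ) := by
    have := Nat.sub_one_lt_floor ((X : ℝ) ^ σ)
    linarith
  have h9 : 1 - q ≤ Real.exp (-q) := by
    have := Real.add_one_le_exp (-q)
    linarith
  calc (1 - q) ^ ⌊(X : ℝ) ^ σ⌋₊ ≤ Real.exp (-q) ^ ⌊(X : ℝ) ^ σ⌋₊ :=
        pow_le_pow_left₀ (by linarith) h9 _
    _ = Real.exp (⌊(X : ℝ) ^ σ⌋₊ * -q) := (Real.exp_nat_mul _ _).symm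
    _ ≤ Real.exp (-(2 * Real.log X)) := by
        apply Real.exp_le_exp.2
        nlinarith
    _ = 1 / (X : ℝ) ^ 2 := by
        rw [Real.exp_neg, two_mul, Real.exp_add, Real.exp_log hXpos, ← sq, one_div]

end Pool.Agent.K3h70.RP
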