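import Mathlib
import Pool.Agent.K3h70.RP.Core
import Pool.Agent.K3h70.RP.Prob

/-! # Randomly perturbed sequences are bases of a small order (helper70) -/

set_option autoImplicit false

open Finset MeasureTheory ProbabilityTheory Filter
open scoped ENNReal

namespace Pool.Agent.K3h70.RP

theorem perturbed {κ K x₀ ε : ℝ} (hκ : 0 < κ) (hκ1 : κ ≤ 1 / 2) (hε : 0 < ε) (hε1 : ε ≤ 1 / 2)
    {a : ℕ → ℕ} (hinj : Function.Injective a) (ha : GapS κ K x₀ a)
    {Ω : Type} [MeasurableSpace Ω] (μ : Measure Ω) [IsProbabilityMeasure μ]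
    {ξ : ℕ → Ω → ℕ} (hmeas : ∀ n, Measurable (ξ n)) (hind : iIndepFun ξ μ)
    (hunif : ∀ n, ∀ j ≤ ⌊(a n : ℝ) ^ ε⌋₊, μ {ω | ξ n ω = j} = 1 / ((⌊(a n : ℝ) ^ ε⌋₊ : ℝ≥0∞) + 1)) :
    ∀ᵐ ω ∂μ, ∀ᶠ X : ℕ in atTop, ∃ l : List ℕ, (l.length : ℝ) ≤ (Real.log (1 / ε) + 5) / κ ∧
      (l.map fun n => a n + ξ n ω).sum = X := by
  classical
  obtain ⟨S, hS, q, hq0, hq1, X₀, hcore⟩ := core (K := K) (x₀ := x₀) hκ hκ1 hε hε1
  obtain ⟨X₁, hX₁⟩ := summable_fail hq0 hq1 (show 0 < κ / 4 by positivity)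
  set X₂ : ℕ := max (max ⌈X₀⌉₊ X₁) 1 with hX₂
  have hfin : ∀ X : ℕ, Fintype {n // (a n : ℝ) ≤ X} := fun X => by
    have h1 : {n | (a n : ℝ) ≤ X}.Finite := by
      have h2 : {n | (a n : ℝ) ≤ X} = a ⁻¹' (Set.Iic X) := by
        ext n
        simp
      rw [h2]
      exact (Set.finite_Iic X).preimage hinj.injOn
    exact h1.fintype
  set Bad : ℕ → Set Ω := fun X => {ω | ¬ ∃ l : List {n // (a n : ℝ) ≤ X}, l.length ≤ S ∧
    (l.map fun i => a i.1 + ξ i.1 ω).sum = X} with hBad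
  have hprob : ∀ X : ℕ, X₂ ≤ X → μ (Bad X) ≤ ENNReal.ofReal (1 / (X : ℝ) ^ 2) := by
    intro X hX
    have h1 : X₀ ≤ (X : ℝ) := by
      have h2 : ⌈X₀⌉₊ ≤ X := ((le_max_left _ _).trans (le_max_left _ _)).trans hX
      exact (Nat.le_ceil X₀).trans (by exact_mod_cast h2)
    have h3 : X₁ ≤ X := ((le_max_right _ _).trans (le_max_left _ _)).trans hX
    have i1 := hfin X
    have h4 := hcore a ha X X rfl h1
    have h5 := prob_le μ hmeas hind (w := fun n => ⌊(a n : ℝ) ^ ε⌋₊) hunif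
      (p := fun n => (a n : ℝ) ≤ X)
      (fun x => ¬ ∃ l : List {n // (a n : ℝ) ≤ X}, l.length ≤ S ∧
        (l.map fun i => a i.1 + x i).sum = X) h4
    exact h5.trans (ENNReal.ofReal_le_ofReal (hX₁ X h3))
  set s : ℕ → Set Ω := fun X => if X₂ ≤ X then Bad X else ∅ with hs
  have hsμ : ∀ X, μ (s X) ≤ ENNReal.ofReal (1 / (X : ℝ) ^ 2) := by
    intro X
    rw [hs]
    simp only
    split_ifs with h
    · exact hprob X h
    · simp
  have hsum : ∑' X, μ (s X) ≠ ∞ := by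
    refine ne_top_of_le_ne_top ?_ (ENNReal.tsum_le_tsum hsμ)
    rw [← ENNReal.ofReal_tsum_of_nonneg (fun X => by positivity)
      (Real.summable_one_div_nat_pow.2 (by norm_num))]
    exact ENNReal.ofReal_ne_top
  filter_upwards [ae_eventually_notMem hsum] with ω hω
  filter_upwards [hω, eventually_ge_atTop X₂] with X hX hX2
  rw [hs] at hX
  simp only [if_pos hX2] at hX
  rw [hBad] at hX
  simp only [Set.mem_ofPred_eq, not_not] at hX
  obtain ⟨l, hl1, hl2⟩ := hX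
  refine ⟨l.map fun i => i.1, ?_, ?_⟩
  · rw [List.length_map]
    have : (l.length : ℝ) ≤ S := by exact_mod_cast hl1
    linarith
  · rw [List.map_map]
    exact hl2

end Pool.Agent.K3h70.RP
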